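import Mathlib

set_option autoImplicit false

namespace Pool.Agent.Results.MP_d0ec72_al.PositiveWitt

open Polynomial

universe u

variable (k : Type u) [Field k]

lemma der_apply (D : Derivation k k[X] k[X]) (f : k[X]) : D f = derivative f * D X := by
  have h : D = mkDerivation k (D X) := by
    apply Polynomial.derivation_ext
    rw [mkDerivation_apply, derivative_X, one_smul]
  conv_lhs => rw [h]
  rw [mkDerivation_apply, smul_eq_mul]

lemma comm_apply (D E : Derivation k k[X] k[X]) :
    ⁅D, E⁆ X = derivative (E X) * D X - derivative (D X) * E X := by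
  rw [Derivation.commutator_apply, der_apply k D (E X), der_apply k E (D X)]

/-- The derivations `f(t) d/dt` of `k[t]` with `t ^ 2 ∣ f`. -/
def Wplus : LieSubalgebra k (Derivation k k[X] k[X]) where
  carrier := {D | X ^ 2 ∣ D X}
  add_mem' := by
    intro a b ha hb
    exact dvd_add ha hb
  zero_mem' := dvd_zero _
  smul_mem' := by
    intro c x hx
    show X ^ 2 ∣ (c • x) X
    rw [Derivation.smul_apply, smul_eq_C_mul]
    exact Dvd.dvd.mul_left hx _
  lie_mem' := by
    intro a b ha hb
    show X ^ 2 ∣ ⁅a, b⁆ X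
    rw [comm_apply]
    exact dvd_sub (Dvd.dvd.mul_left ha _) (Dvd.dvd.mul_left hb _)

variable {k}

/-- The coefficient polynomial. -/
noncomputable def co (D : Wplus k) : k[X] := (D : Derivation k k[X] k[X]) X

lemma co_add (D E : Wplus k) : co (D + E) = co D + co E := rfl
lemma co_sub (D E : Wplus k) : co (D - E) = co D - co E := rfl
lemma co_smul (c : k) (D : Wplus k) : co (c • D) = C c * co D := by
  show ((c • (D : Derivation k k[X] k[X])) : Derivation k k[X] k[X]) X = _
  rw [Derivation.smul_apply, smul_eq_C_mul]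
  rfl
lemma co_zero : co (0 : Wplus k) = 0 := rfl
lemma co_lie (D E : Wplus k) : co ⁅D, E⁆ = derivative (co E) * co D - derivative (co D) * co E :=
  comm_apply k D E

lemma co_inj {D E : Wplus k} (h : co D = co E) : D = E := by
  apply Subtype.ext
  exact Polynomial.derivation_ext h

lemma co_ne {D : Wplus k} (h : D ≠ 0) : co D ≠ 0 := fun h0 => h (co_inj h0)

lemma co_dvd (D : Wplus k) : X ^ 2 ∣ co D := D.2

lemma two_le (D : Wplus k) (h : D ≠ 0) : 2 ≤ (co D).natDegree := by
  have h1 := natDegree_le_of_dvd (co_dvd D) (co_ne h)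
  rwa [natDegree_X_pow] at h1

/-- the degree of a derivation, with `deg t ^ (i+1) d/dt = i` -/
noncomputable def deg (D : Wplus k) : ℕ := (co D).natDegree - 1

lemma deg_pos (D : Wplus k) (h : D ≠ 0) : 1 ≤ deg D := by
  have := two_le D h
  unfold deg
  omega

lemma coeff_lie (f g : k[X]) (a b : ℕ) (hf : f.natDegree ≤ a + 1) (hg : g.natDegree ≤ b + 1) :
    (derivative g * f - derivative f * g).coeff (a + b + 1) =
      ((b : k) - a) * f.coeff (a + 1) * g.coeff (b + 1) := by
  have h1 : (derivative g * f).coeff (b + (a + 1)) = (derivative g).coeff b * f.coeff (a + 1) :=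
    coeff_mul_add_eq_of_natDegree_le ((natDegree_derivative_le g).trans (by omega)) hf
  have h2 : (derivative f * g).coeff (a + (b + 1)) = (derivative f).coeff a * g.coeff (b + 1) :=
    coeff_mul_add_eq_of_natDegree_le ((natDegree_derivative_le f).trans (by omega)) hg
  rw [coeff_sub, show a + b + 1 = b + (a + 1) by ring, h1, show b + (a + 1) = a + (b + 1) by ring,
    h2, coeff_derivative, coeff_derivative]
  ring

lemma natDegree_lie (f g : k[X]) (a b : ℕ) (hf : f.natDegree ≤ a + 1) (hg : g.natDegree ≤ b + 1) :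
    (derivative g * f - derivative f * g).natDegree ≤ a + b + 1 := by
  have h1 := natDegree_derivative_le g
  have h2 := natDegree_derivative_le f
  refine (natDegree_sub_le _ _).trans (max_le ?_ ?_)
  · refine natDegree_mul_le.trans ?_
    omega
  · refine natDegree_mul_le.trans ?_
    omega

lemma deg_lie [CharZero k] (D E : Wplus k) (hD : D ≠ 0) (hE : E ≠ 0) (hne : deg D ≠ deg E) :
    ⁅D, E⁆ ≠ 0 ∧ deg ⁅D, E⁆ = deg D + deg E := by
  have hD2 := two_le D hD
  have hE2 := two_le E hE
  obtain ⟨a, ha⟩ : ∃ a, (co D).natDegree = a + 1 := ⟨(co D).natDegree - 1, by omega⟩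
  obtain ⟨b, hb⟩ : ∃ b, (co E).natDegree = b + 1 := ⟨(co E).natDegree - 1, by omega⟩
  have hda : deg D = a := by unfold deg; omega
  have hdb : deg E = b := by unfold deg; omega
  have hab : (b : k) - a ≠ 0 := by
    rw [sub_ne_zero]
    intro h
    have := Nat.cast_injective h
    omega
  have hc := coeff_lie (co D) (co E) a b ha.le hb.le
  have hn := natDegree_lie (co D) (co E) a b ha.le hb.le
  rw [← co_lie] at hc hn
  have hcne : (co ⁅D, E⁆).coeff (a + b + 1) ≠ 0 := by
    rw [hc]
    refine mul_ne_zero (mul_ne_zero hab ?_) ?_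
    · rw [← ha]
      exact leadingCoeff_ne_zero.mpr (co_ne hD)
    · rw [← hb]
      exact leadingCoeff_ne_zero.mpr (co_ne hE)
  have hdeg : (co ⁅D, E⁆).natDegree = a + b + 1 :=
    le_antisymm hn (le_natDegree_of_ne_zero hcne)
  refine ⟨fun h0 => hcne ?_, ?_⟩
  · rw [h0, co_zero, coeff_zero]
  · unfold deg
    rw [hdeg, ha, hb]
    omega

/-- The set of degrees of the nonzero elements of a subalgebra. -/
def degs (S : LieSubalgebra k (Wplus k)) : Set ℕ := {n | ∃ D ∈ S, D ≠ 0 ∧ deg D = n}

lemma degs_mono {S T : LieSubalgebra k (Wplus k)} (h : S ≤ T) : degs S ⊆ degs T := by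
  rintro n ⟨D, hD, h1, h2⟩
  exact ⟨D, h hD, h1, h2⟩

lemma degs_add [CharZero k] (S : LieSubalgebra k (Wplus k)) {a b : ℕ} (ha : a ∈ degs S)
    (hb : b ∈ degs S) (hab : a ≠ b) : a + b ∈ degs S := by
  obtain ⟨D, hD, hD0, rfl⟩ := ha
  obtain ⟨E, hE, hE0, rfl⟩ := hb
  obtain ⟨h1, h2⟩ := deg_lie D E hD0 hE0 hab
  exact ⟨⁅D, E⁆, S.lie_mem hD hE, h1, h2⟩

lemma degs_pos (S : LieSubalgebra k (Wplus k)) {a : ℕ} (ha : a ∈ degs S) : 1 ≤ a := by
  obtain ⟨D, hD, hD0, rfl⟩ := ha
  exact deg_pos D hD0

/-- A subalgebra is determined by its degrees inside a larger one. -/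
lemma eq_of_degs {S T : LieSubalgebra k (Wplus k)} (h : S ≤ T) (hd : degs T ⊆ degs S) :
    S = T := by
  refine le_antisymm h ?_
  have key : ∀ (n : ℕ) (D : Wplus k), D ∈ T → (co D).natDegree < n → D ∈ S := by
    intro n
    induction n with
    | zero => intro D _ h0; omega
    | succ n ih =>
      intro D hD hn
      by_cases hD0 : D = 0
      · rw [hD0]; exact S.zero_mem
      obtain ⟨E, hE, hE0, hEd⟩ := hd ⟨D, hD, hD0, rfl⟩
      have h1 := two_le D hD0
      have h2 := two_le E hE0
      have h3 : (co E).natDegree = (co D).natDegree := by unfold deg at hEd; omega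
      set c : k := (co D).leadingCoeff / (co E).leadingCoeff with hc
      have hlE : (co E).leadingCoeff ≠ 0 := leadingCoeff_ne_zero.mpr (co_ne hE0)
      have hlD : (co D).leadingCoeff ≠ 0 := leadingCoeff_ne_zero.mpr (co_ne hD0)
      have hc0 : c ≠ 0 := div_ne_zero hlD hlE
      have h4 : D - c • E ∈ S := by
        by_cases h5 : D - c • E = 0
        · rw [h5]; exact S.zero_mem
        apply ih _ (T.sub_mem hD (T.smul_mem c (h hE)))
        rw [co_sub, co_smul]
        have h6 : (co D - C c * co E).degree < (co D).degree := by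
          apply degree_sub_lt_left
          · rw [degree_C_mul hc0, degree_eq_natDegree (co_ne hD0),
              degree_eq_natDegree (co_ne hE0), h3]
          · exact co_ne hD0
          · rw [leadingCoeff_mul, leadingCoeff_C, hc, div_mul_cancel₀ _ hlE]
        have h7 : (co D - C c * co E).natDegree < (co D).natDegree := by
          apply natDegree_lt_natDegree _ h6
          intro h8
          apply h5
          apply co_inj
          rw [co_sub, co_smul, h8, co_zero]
        omega
      have h9 : D = (D - c • E) + c • E := by abel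
      rw [h9]
      exact S.add_mem h4 (S.smul_mem c hE)
  intro D hD
  exact key _ D hD (Nat.lt_succ_self _)

/-- Closed sets of degrees are finitely generated. -/
lemma closed_fg (T : Set ℕ) (hpos : ∀ a ∈ T, 1 ≤ a) :
    ∃ G : Set ℕ, G.Finite ∧ G ⊆ T ∧ ∀ T' : Set ℕ, T' ⊆ T →
      (∀ a ∈ T', ∀ b ∈ T', a ≠ b → a + b ∈ T') → G ⊆ T' → T ⊆ T' := by
  classical
  rcases T.eq_empty_or_nonempty with rfl | ⟨i, hi⟩
  · exact ⟨∅, Set.finite_empty, Set.Subset.rfl, fun _ _ _ _ => Set.empty_subset _⟩
  have hi1 := hpos i hi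
  -- the least element other than `i` of each residue class
  let m : Fin i → ℕ := fun r =>
    if h : ∃ a, a ∈ T ∧ a % i = r ∧ a ≠ i then Nat.find h else i
  have hmT : ∀ r, m r ∈ T := by
    intro r
    by_cases h : ∃ a, a ∈ T ∧ a % i = r ∧ a ≠ i
    · have : m r = Nat.find h := dif_pos h
      rw [this]
      exact (Nat.find_spec h).1
    · have : m r = i := dif_neg h
      rw [this]
      exact hi
  refine ⟨insert i (Set.range m), (Set.finite_range m).insert i, ?_, ?_⟩
  · rintro x (rfl | ⟨r, rfl⟩)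
    · exact hi
    · exact hmT r
  · intro T' hT' hadd hG a ha
    by_cases hai : a = i
    · rw [hai]; exact hG (Set.mem_insert _ _)
    have hr : a % i < i := Nat.mod_lt _ hi1
    have hex : ∃ b, b ∈ T ∧ b % i = ((⟨a % i, hr⟩ : Fin i) : ℕ) ∧ b ≠ i := ⟨a, ha, rfl, hai⟩
    have hm : m ⟨a % i, hr⟩ = Nat.find hex := dif_pos hex
    have hspec := Nat.find_spec hex
    have hmin : Nat.find hex ≤ a := Nat.find_min' hex ⟨ha, rfl, hai⟩
    have hmG : Nat.find hex ∈ T' := by
      rw [← hm]
      exact hG (Set.mem_insert_of_mem _ ⟨_, rfl⟩)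
    have hiT' : i ∈ T' := hG (Set.mem_insert _ _)
    set b := Nat.find hex with hb
    have hb1 : 1 ≤ b := hpos b hspec.1
    have hstep : ∀ j : ℕ, b + j * i ∈ T' := by
      intro j
      induction j with
      | zero => simpa using hmG
      | succ j ih =>
        have hne : b + j * i ≠ i := by
          rcases Nat.eq_zero_or_pos j with rfl | hj
          · simpa using hspec.2.2
          · have : 1 * i ≤ j * i := Nat.mul_le_mul_right i hj
            omega
        have := hadd _ ih _ hiT' hne
        have h2 : b + (j + 1) * i = b + j * i + i := by ring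
        rwa [h2]
    have hmod : b % i = a % i := hspec.2.1
    obtain ⟨j, hj⟩ : ∃ j, a = b + j * i := by
      have h1 := Nat.sub_mod_eq_zero_of_mod_eq hmod.symm
      obtain ⟨j, hj⟩ := Nat.dvd_of_mod_eq_zero h1
      exact ⟨j, by rw [mul_comm j i, ← hj]; omega⟩
    rw [hj]
    exact hstep j

lemma noetherian [CharZero k] : WellFoundedGT (LieSubalgebra k (Wplus k)) := by
  rw [wellFoundedGT_iff_monotone_chain_condition]
  intro f
  obtain ⟨G, hGf, hGT, hG⟩ := closed_fg {n | ∃ j, n ∈ degs (f j)} (by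
    rintro a ⟨j, hj⟩
    exact degs_pos _ hj)
  have h1 : ∃ N, ∀ a ∈ G, a ∈ degs (f N) := by
    have h2 : ∀ a ∈ G, ∃ j, a ∈ degs (f j) := fun a ha => hGT ha
    choose! J hJ using h2
    obtain ⟨N, hN⟩ := (hGf.image J).bddAbove
    exact ⟨N, fun a ha => degs_mono (f.monotone (hN ⟨a, ha, rfl⟩)) (hJ a ha)⟩
  obtain ⟨N, hN⟩ := h1
  refine ⟨N, fun m hm => eq_of_degs (f.monotone hm) ?_⟩
  have h3 := hG (degs (f N)) (fun a ha => ⟨N, ha⟩)
    (fun a ha b hb hab => degs_add (f N) ha hb hab) hN
  exact fun a ha => h3 ⟨m, ha⟩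

/-- The ideal of the derivations divisible by `t ^ n`. -/
def Id (n : ℕ) : LieIdeal k (Wplus k) where
  carrier := {D | X ^ n ∣ co D}
  add_mem' := by
    intro a b ha hb
    exact dvd_add ha hb
  zero_mem' := dvd_zero _
  smul_mem' := by
    intro c x hx
    show X ^ n ∣ co (c • x)
    rw [co_smul]
    exact Dvd.dvd.mul_left hx _
  lie_mem := by
    intro a b hb
    show X ^ n ∣ co ⁅a, b⁆
    rw [co_lie]
    obtain ⟨g, hg⟩ := hb
    obtain ⟨f, hf⟩ := co_dvd a
    refine dvd_sub ?_ ?_
    · rw [hg, hf]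
      rcases n with _ | n
      · simp
      · rw [derivative_mul, derivative_X_pow]
        refine ⟨C ((n + 1 : ℕ) : k) * X * g * f + derivative g * X ^ 2 * f, ?_⟩
        rw [Nat.add_sub_cancel]
        ring
    · rw [hg]
      exact Dvd.dvd.mul_left (Dvd.intro _ rfl) _

lemma lie_Id (n : ℕ) (D E : Wplus k) (hE : E ∈ Id (k := k) n) : ⁅D, E⁆ ∈ Id (k := k) (n + 1) := by
  show X ^ (n + 1) ∣ co ⁅D, E⁆
  rw [co_lie]
  obtain ⟨g, hg⟩ := hE
  obtain ⟨f, hf⟩ := co_dvd D
  rw [hg, hf]
  refine dvd_sub ?_ ?_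
  · rcases n with _ | n
    · refine ⟨derivative g * X * f, ?_⟩
      simp
      ring
    · rw [derivative_mul, derivative_X_pow]
      refine ⟨C ((n + 1 : ℕ) : k) * g * f + derivative g * X * f, ?_⟩
      rw [Nat.add_sub_cancel]
      ring
  · rw [derivative_mul, derivative_X_pow]
    refine ⟨(C ((2 : ℕ) : k) * f + derivative f * X) * g, ?_⟩
    ring

lemma lcs_le (n : ℕ) : LieModule.lowerCentralSeries k (Wplus k) (Wplus k) n ≤ Id n := by
  induction n with
  | zero =>
    intro D _
    show X ^ 0 ∣ co D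
    rw [pow_zero]
    exact one_dvd _
  | succ n ih =>
    rw [LieModule.lowerCentralSeries_succ, LieSubmodule.lie_le_iff]
    intro D _ E hE
    exact lie_Id n D E (ih hE)

lemma not_mem_Id (D : Wplus k) (hD : D ≠ 0) : D ∉ Id (k := k) ((co D).natDegree + 1) := by
  intro h
  have h1 := natDegree_le_of_dvd (show X ^ ((co D).natDegree + 1) ∣ co D from h) (co_ne hD)
  rw [natDegree_X_pow] at h1
  omega

lemma quot_nilp (n : ℕ) : LieRing.IsNilpotent (Wplus k ⧸ Id (k := k) n) := by
  have h : LieModule.IsNilpotent (Wplus k) (Wplus k ⧸ Id (k := k) n) :=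
    (LieModule.isNilpotent_quotient_iff k (Wplus k) (Wplus k) (Id n)).mpr ⟨n, lcs_le n⟩
  rw [LieModule.isNilpotent_iff k] at h
  show LieModule.IsNilpotent (Wplus k ⧸ Id (k := k) n) (Wplus k ⧸ Id (k := k) n)
  rw [LieModule.isNilpotent_iff k]
  obtain ⟨j, hj⟩ := h
  refine ⟨j, ?_⟩
  rw [← LieSubmodule.toSubmodule_inj, ← coe_lowerCentralSeries_ideal_quot_eq, hj]
  rfl

lemma infinite_dim : ¬ Module.Finite k (Wplus k) := by
  intro hfin
  let v : ℕ → Wplus k := fun n => ⟨mkDerivation k (X ^ (n + 2)), by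
    show (X : k[X]) ^ 2 ∣ mkDerivation k ((X : k[X]) ^ (n + 2)) (X : k[X])
    rw [mkDerivation_apply, derivative_X, one_smul, pow_add]
    exact Dvd.intro_left _ rfl⟩
  have hv : ∀ n, co (v n) = X ^ (n + 2) := by
    intro n
    show mkDerivation k ((X : k[X]) ^ (n + 2)) (X : k[X]) = _
    rw [mkDerivation_apply, derivative_X, one_smul]
  let F : Wplus k →ₗ[k] k[X] :=
    { toFun := co
      map_add' := co_add
      map_smul' := fun c D => by
        rw [co_smul, RingHom.id_apply, smul_eq_C_mul] }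
  have h1 : LinearIndependent k (fun n : ℕ => (X : k[X]) ^ (n + 2)) := by
    have h2 := (Polynomial.basisMonomials k).linearIndependent
    have h3 := h2.comp (fun n : ℕ => n + 2) (fun a b h => by simpa using h)
    have h4 : (⇑(Polynomial.basisMonomials k) ∘ fun n : ℕ => n + 2)
        = fun n : ℕ => (X : k[X]) ^ (n + 2) := by
      funext n
      simp [Polynomial.coe_basisMonomials, monomial_one_right_eq_X_pow]
    rwa [h4] at h3
  have h5 : LinearIndependent k v := by
    apply LinearIndependent.of_comp F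
    have h6 : (⇑F ∘ v) = fun n : ℕ => (X : k[X]) ^ (n + 2) := by
      funext n
      exact hv n
    rwa [h6]
  exact not_finite_iff_infinite.mpr inferInstance h5.finite

/-- **Over every field of characteristic zero there is an infinite-dimensional Lie algebra which
satisfies the maximal condition on subalgebras and is residually nilpotent**, namely the positive
part `t ^ 2 k[t] d/dt` of the Witt algebra. -/
theorem result (k : Type u) [Field k] [CharZero k] :
    ∃ (L : Type u) (_ : LieRing L) (_ : LieAlgebra k L),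
      ¬ Module.Finite k L ∧
      WellFoundedGT (LieSubalgebra k L) ∧
      (∀ x : L, x ≠ 0 → ∃ I : LieIdeal k L, x ∉ I ∧ LieRing.IsNilpotent (L ⧸ I)) ∧
      ⨅ n, LieModule.lowerCentralSeries k L L n = ⊥ := by
  refine ⟨Wplus k, inferInstance, inferInstance, infinite_dim, noetherian,
    fun x hx => ⟨Id ((co x).natDegree + 1), not_mem_Id x hx, quot_nilp _⟩, ?_⟩
  rw [eq_bot_iff]
  intro x hx
  rw [LieSubmodule.mem_bot]
  by_contra hx0
  rw [LieSubmodule.mem_iInf] at hx
  exact not_mem_Id x hx0 (lcs_le _ (hx _))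

end Pool.Agent.Results.MP_d0ec72_al.PositiveWitt
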